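import Pool.Agent.R950.DMG

/-!
# MP_0a1f67_ag: double Markovian Gaussian correlation models

For graphs `G, H` on `n` vertices, `CorrModel G H` (file `Pool/Agent/R950/DMB.lean`) is the set
of the real positive definite `n × n` matrices `S` with unit diagonal such that
`(S⁻¹) i j = 0` for the non-edges of `G` and `S i j = 0` for the non-edges of `H`.

* `semialgDim` (file `DMG.lean`): the dimension of a semialgebraic set, defined as the largest `d`
  such that the projection of the set onto some `d` matrix entries has nonempty interior in `ℝ^d`;
* `IsSmoothSubmanifold` (file `DMF.lean`): smooth embedded submanifold (near each of its points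
  the set is the zero set of a smooth submersion to some `ℝ^k`);
* `zariskiClosure`, `ZariskiIrreducible` (file `DMF.lean`): with respect to real polynomials in
  the matrix entries.
-/

open Matrix Pool.Agent.R950.DM

namespace Pool.Agent.Results.MP_0a1f67_ag.BothTrue

lemma connected_MM {n : ℕ} (G H : SimpleGraph (Fin n)) : IsConnected (MM G H) := by
  refine ⟨⟨1, one_mem_MM⟩, ?_⟩
  have h1 : ContinuousOn (psi G H) (Om G H) := by
    intro c hc
    apply ContinuousAt.continuousWithinAt
    apply continuousAt_pi.2
    intro i
    apply continuousAt_pi.2
    intro j
    exact (psi_contDiffAt hc i j).continuousAt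
  have h2 := (Om_convex (G := G) (H := H)).isPreconnected.image _ h1
  have h3 : psi G H '' Om G H = MM G H := by
    apply Set.Subset.antisymm
    · rintro _ ⟨c, hc, rfl⟩
      exact psi_mem hc
    · intro S hS
      exact ⟨coC G H S, coC_mem hS, psi_coC hS⟩
  rwa [h3] at h2

/-- **Affirmative answers to Q1 and Q2 of MP_0a1f67**, for all graphs `G, H` on `n` vertices:
(1) if the dimension of the correlation model is the number of common edges, then the model is a
smooth embedded submanifold;
(2) if the model is a smooth embedded submanifold, then its Zariski closure is irreducible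
(and the model is connected). -/
theorem result (n : ℕ) (G H : SimpleGraph (Fin n)) :
    (semialgDim (CorrModel G H) = (G.edgeSet ∩ H.edgeSet).ncard →
      IsSmoothSubmanifold (E := Fin n → Fin n → ℝ) (CorrModel G H)) ∧
    (IsSmoothSubmanifold (E := Fin n → Fin n → ℝ) (CorrModel G H) →
      ZariskiIrreducible (zariskiClosure (CorrModel G H)) ∧ IsConnected (CorrModel G H)) := by
  refine ⟨?_, ?_⟩
  · intro h
    rw [eq_of_dim h]
    exact MM_smooth
  · intro h
    rw [eq_of_smooth h]
    exact ⟨MM_irreducible, connected_MM G H⟩

end Pool.Agent.Results.MP_0a1f67_ag.BothTrue
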